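import Pool.Agent.D0H75.LF.Dual2

/-!
Chow-Künneth decompositions and von Neumann regular Lefschetz operators.

Let `X` be smooth projective of dimension `d` and let `L ∈ CH^(d + 1)(X × X)` be any correspondence
(for instance the push-forward to the diagonal of a divisor class).

(1) The equations `L ^ k ∘ Λ ∘ L ^ k = L ^ k`, `1 ≤ k ≤ d`, which are linear in
`Λ ∈ CH^(d - k)(X × X)`, have solutions in the Chow group if and only if the Chow motive of `X` has
a decomposition into strings for `L` (a Lefschetz decomposition): the diagonal is the sum of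
orthogonal idempotents `L ^ j ∘ lam n ∘ L ^ (n - j)`, `0 ≤ j ≤ n ≤ d`.

(2) Let the hard Lefschetz theorem hold for the action of `L` on the cohomology. Then the equations
have solutions if and only if `X` has a Chow-Künneth decomposition `π` with
`L ∘ π i = π (i + 2) ∘ L` and such that `L ^ (d - i)` is an isomorphism of Chow motives from
`(X, π i)` to `(X, π (2 d - i))(d - i)` for all `i ≤ d`. No finite-dimensionality, no nilpotence and
no algebraicity of Künneth projectors is assumed. The Chow motives `(X, π i)` are then unique: if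
`π'` is another such decomposition for the same `L` then `π i ∘ π' i ∘ π i = π i` for all `i`, so that
`π' i ∘ π i` is an isomorphism from `(X, π i)` to `(X, π' i)` with inverse `π i ∘ π' i`. If `L` is
symmetric, as in the case of a divisor class, then `π` can be chosen self-dual.

(3) Let the Chow motive of `X` be a direct summand of `h(Y)(r)`, compatibly with
`L ∈ CH^(dim X + 1)(X × X)` and `M ∈ CH^(dim Y + 1)(Y × Y)`. If the equations have solutions for `M`
then they have solutions for `L`; so `X` has a Chow-Künneth decomposition as in (2) if the hard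
Lefschetz theorem holds for `L` on the cohomology of `X`. Nothing is assumed on the action of `M` on
the cohomology of `Y`.

(4) If the equations have solutions for `(X, L)` and for `(Y, M)` then they have solutions for
`X × Y` and `L × Δ + Δ × M`.

(5) Let the homologically trivial self-correspondences of degree zero of `X` be nilpotent (for
instance the Chow motive of `X` is finite-dimensional). Then the Lefschetz standard conjecture holds
for `X` and `L` if and only if `X` has a Chow-Künneth decomposition as in (2) for some `L'`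
homologically equivalent to `L`.
-/

namespace Pool.Agent.Results.MP_524776_ag.ChowLefschetzRegularity

open Pool.Agent.H914 Pool.Agent.H914.VarClass Pool.Agent.H914.VarClass.Obj Pool.Agent.W492.BB
  Pool.Agent.W550.Corr Pool.Agent.TH133 Pool.Agent.D0H75.LFS

universe v

theorem result {𝒱 : VarClass ℂ} {C : TheoryData.{0, v, 0} 𝒱 ℚ} [IsChowProj C]
    {H : WeilTheoryData.{0, v, 0} C ℚ} [IsWeilProj H] :
    -- (1) regularity and decompositions into strings
    (∀ (X : 𝒱.Obj) (L : C.A (X.prod X)), C.Deg (X.dim + 1) L →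
      (IsRegular C X L ↔ ∃ lam, IsStrings C X L lam)) ∧
    -- (2) regularity and Chow-Künneth decompositions
    (∀ (X : 𝒱.Obj) (L : C.A (X.prod X)), C.Deg (X.dim + 1) L → HardLef H X L →
      (IsRegular C X L ↔ ∃ π, IsLefCK H X L π) ∧
      (tp C L = L → IsRegular C X L → ∃ π, IsLefCK H X L π ∧ IsSelfDual C π) ∧
      ∀ π π', IsLefCK H X L π → IsLefCK H X L π' →
        ∀ i, C.comp (C.comp (π i) (π' i)) (π i) = π i) ∧
    -- (3) direct summands
    (∀ (X Y : 𝒱.Obj) (L : C.A (X.prod X)) (M : C.A (Y.prod Y)), C.Deg (X.dim + 1) L →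
      C.Deg (Y.dim + 1) M → ∀ (r : ℤ) (α : C.A (X.prod Y)) (β : C.A (Y.prod X)),
      C.Deg (X.dim + r) α → C.Deg (Y.dim - r) β → C.comp α β = dg C X →
      C.comp α M = C.comp L α → C.comp M β = C.comp β L → IsRegular C Y M →
      IsRegular C X L ∧ (HardLef H X L → ∃ π, IsLefCK H X L π)) ∧
    -- (4) products
    (∀ (X Y : 𝒱.Obj) (L : C.A (X.prod X)) (M : C.A (Y.prod Y)), C.Deg (X.dim + 1) L →
      C.Deg (Y.dim + 1) M → IsRegular C X L → IsRegular C Y M →
      IsRegular C (X.prod Y) (tens C L (dg C Y) + tens C (dg C X) M)) ∧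
    -- (5) finite-dimensional motives
    (∀ (X : 𝒱.Obj) (L : C.A (X.prod X)), C.Deg (X.dim + 1) L → NilKernel H X →
      (LefStandard H X L ↔ ∃ (L' : C.A (X.prod X)) (π : ℕ → C.A (X.prod X)),
        C.Deg (X.dim + 1) L' ∧ H.cl L' = H.cl L ∧ IsLefCK H X L' π)) :=
  ⟨fun _ _ hL => Pool.Agent.D0H75.LF.exists_strings_iff hL,
    fun _ _ hL hHL => ⟨Pool.Agent.D0H75.LF.exists_lefCK_iff hL hHL,
      fun hs h => let ⟨_, hπ⟩ := (Pool.Agent.D0H75.LF.exists_lefCK_iff hL hHL).1 h
        Pool.Agent.D0H75.LF.lefCK_selfDual hs hπ,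
      fun _ _ h h' i => Pool.Agent.D0H75.LF.lefCK_unique h h' i⟩,
    fun _ _ _ _ hL hM r _ _ hα hβ h1 h2 h3 h =>
      have hX := Pool.Agent.D0H75.LF.isRegular_of_summand hM r hα hβ h1 h2 h3 h
      ⟨hX, fun hHL => (Pool.Agent.D0H75.LF.exists_lefCK_iff hL hHL).1 hX⟩,
    fun _ _ _ _ hL hM h h' => Pool.Agent.D0H75.LF.isRegular_prod hL hM h h',
    fun _ _ hL hX => ⟨Pool.Agent.D0H75.LF.exists_lefCK_of_standard hL hX,
      fun ⟨_, _, _, hcl, h⟩ => Pool.Agent.D0H75.LF.standard_of_lefCK hcl h⟩⟩

end Pool.Agent.Results.MP_524776_ag.ChowLefschetzRegularity
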