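import Pool.Agent.D0H66.CK.Close2

/-!
Chow-Künneth decompositions of direct summands and of images.

Terminology. A variety `V` with a Chow-Künneth decomposition is tame if its homologically trivial
self-correspondences of degree zero are nilpotent (`NilpotentKernel`), which holds if its motive is
finite-dimensional in the sense of Kimura and O'Sullivan; it is tame outside the weight `w` if this
holds for all components of weight different from `w` (`TameOutside`).

(1) Let `Gen` be the smallest class of smooth projective complex varieties which contains all points,
curves and surfaces and all tame varieties with a Chow-Künneth decomposition, and which is closed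
under direct summands (the motive of `X` is a direct summand of a finite sum of Tate twists of
motives of members) and images. Every member of `Gen` has a Chow-Künneth decomposition. Example: the
smooth projective fourfolds `X` which are rationally dominated by a product `W` of four curves or by
an abelian fourfold `W`. One resolves the rational map by blow-ups `W'` of `W` along smooth centres
of dimension at most two; the motive of `W'` is a sum of the motives of `W` and of twists of motives
of points, curves and surfaces, and these surfaces are arbitrary.

(2) Let `h(Y)(r)` be built in the same way from varieties `Y` and twists `r` such that `Y` is tame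
outside the weight `w + 2 r`. Then `X` has a Chow-Künneth decomposition. Examples of varieties which
are tame outside the weight `dim Y`: surfaces, smooth complete intersections in projective spaces and
smooth complete intersections of ample divisors in abelian varieties. So a smooth projective fourfold
which is rationally dominated by such a fourfold has a Chow-Künneth decomposition, since the only
component of `h(S)(-1)`, `S` a surface, which need not be tame has the weight four.

(3) For surfaces no correspondence, of any degree, raises the weights; this follows from the structure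
of the Picard and Albanese motives (Murre) and from `Pic^0(S × T) = Pic^0(S) × Pic^0(T)`.

(4) is the general form: the components of the `h(Y k)(r k)` are divided into two sets. For two
components of the first set no correspondence raises the weights, those of the second set are tame;
nothing is assumed on correspondences between the two sets. (5) The class generated by varieties
on which no correspondence raises the weights consists of such varieties.
-/

namespace Pool.Agent.Results.MP_524776_ag.HereditaryDecompositions

open Pool.Agent.H914 Pool.Agent.H914.VarClass Pool.Agent.H914.VarClass.Obj Pool.Agent.W492.BB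
  Pool.Agent.TH133 Pool.Agent.D0H66.CKS

universe v

theorem result {𝒱 : VarClass ℂ} {C : TheoryData.{0, v, 0} 𝒱 ℚ} [IsChowProj C]
    {H : WeilTheoryData.{0, v, 0} C ℚ} [IsWeilProj H]
    (hfin : ∀ X : 𝒱.Obj, Module.Finite ℚ (H.A X)) :
    -- (1) points, curves, surfaces and tame varieties
    ((∀ S : 𝒱.Obj, S.dim = 2 → ∃ π, IsMurre H S π) →
      (∀ S T : 𝒱.Obj, S.dim = 2 → T.dim = 2 → PicardOfProduct H S T) →
      ∀ X : 𝒱.Obj, Gen C (fun Y => Y.dim ≤ 2 ∨ ((∃ τ, IsCK H Y τ) ∧ NilpotentKernel H Y)) X →
        ∃ π, IsCK H X π) ∧
    -- (2) varieties which are tame outside one weight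
    (∀ (w : ℤ) (X : 𝒱.Obj), GenW C (TameOutside H) w X → ∃ π, IsCK H X π) ∧
    -- (3) correspondences between surfaces do not raise the weights
    (∀ (S T : 𝒱.Obj) (π : ℕ → C.A (S.prod S)) (ρ : ℕ → C.A (T.prod T)), IsMurre H S π →
      IsMurre H T ρ → PicardOfProduct H S T → NoRise C (extZ C π) (extZ C ρ)) ∧
    -- (4) the general form
    (∀ (X : 𝒱.Obj) (n : ℕ) (Y : Fin n → 𝒱.Obj) (r : Fin n → ℤ), IsTwistedSummandOf C X Y r →
      ∀ σ : ∀ k, ℤ → C.A ((Y k).prod (Y k)), (∀ k, IsWeightDec H (Y k) (σ k)) →
      ∀ B : Fin n → ℤ → Prop,
      (∀ k l a b, B k a → B l b → a - 2 * r k < b - 2 * r l → ∀ Γ : C.A ((Y k).prod (Y l)),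
        C.Deg ((Y k).dim + (r l - r k)) Γ → C.comp (C.comp (σ k a) Γ) (σ l b) = 0) →
      (∀ k a, ¬ B k a → TameComponent H (Y k) (σ k a)) → ∃ π, IsCK H X π) ∧
    -- (5) varieties on which no correspondence raises the weights
    (∀ (P : 𝒱.Obj → Prop) (σ : ∀ Y : 𝒱.Obj, ℤ → C.A (Y.prod Y)),
      (∀ Y, P Y → IsWeightDec H Y (σ Y)) → (∀ Y Z, P Y → P Z → NoRise C (σ Y) (σ Z)) →
      ∀ X : 𝒱.Obj, Gen C P X → ∃ π, IsWeightDec H X π ∧ NoRise C π π ∧
        ∀ Y, P Y → NoRise C π (σ Y) ∧ NoRise C (σ Y) π) :=
  ⟨fun hM hP _ hX => Pool.Agent.D0H66.CK.gen_low_ck hfin hM hP hX,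
    fun _ _ hX => Pool.Agent.D0H66.CK.genW_ck hfin hX,
    fun _ _ _ _ h h' hP => Pool.Agent.D0H66.CK.noRise_surfaces h h' hP,
    fun _ _ _ _ hX _ hσ B hs hn => Pool.Agent.D0H66.CK.exists_ck_comp hfin hX hσ B hs hn,
    fun P σ hσ hs _ hX => Pool.Agent.D0H66.CK.gen_noRise P σ hσ hs hX⟩

end Pool.Agent.Results.MP_524776_ag.HereditaryDecompositions
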