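import Pool.Agent.D0H66.CK.GeoK2

/-!
Chow-Künneth decompositions from factorisations through tame motives.

A component `(V, q)`, `q` an idempotent self-correspondence of degree zero of `V`, is tame if all
homologically trivial correspondences `q ∘ γ ∘ q` are nilpotent (`TameComponent`); this holds if
`(V, q)` is finite-dimensional in the sense of Kimura and O'Sullivan, for instance for all
components of products of curves and of abelian varieties. The group `H^i(X)` is of tame type if its
identity is a finite sum of factorisations, by algebraic correspondences, through tame components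
`(V_k, q_k)(r_k)` (`TameType`).

(1) Let `w ≤ 2 dim X`. The variety `X` has a Chow-Künneth decomposition whose components of weight
different from `w` are finite sums of tame ones if and only if for every `i ≠ w` the Künneth projector
of weight `i` is algebraic and `H^i(X)` is of tame type. Nothing is assumed on `H^w(X)`, and the motive
of `X` need not be finite-dimensional. The sum of two tame components is not known to be tame (a matrix
ring over a nil ring is not known to be nil); this is why the sums appear.

Let `Y ⟶ X` be a morphism, `dim Y = dim X - 1` (for instance a resolution of the singularities of an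
ample divisor of `X`), and let the Lefschetz standard conjecture hold for `X` and the class of the
image of `Y`.

(2) If for every `j ≤ dim Y` one of the groups `H^j(Y)` and `H^(2 dim Y - j)(Y)` is of tame type, then
`X` has a Chow-Künneth decomposition whose components of weight different from `dim X` are finite sums
of tame ones.

(3) If the homologically trivial self-correspondences of degree zero of `Y` are nilpotent (for instance
if the motive of `Y` is finite-dimensional) then `X` has a Chow-Künneth decomposition whose components
of weight different from `dim X` are tame. Nothing is assumed on the Künneth projectors of `Y`. So the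
existence of one ample divisor with a resolution whose motive is finite-dimensional suffices.

(4) Conversely let `H^j(X)` or `H^(2 dim X - j)(X)` be of tame type for all `j < dim X` and let
`Y ⟶ X` satisfy the weak Lefschetz theorem (`Y` an ample smooth divisor). Then `Y` has a Chow-Künneth
decomposition whose components of weight different from `dim Y` are finite sums of tame ones. This can
be applied several times, for instance to complete intersections of ample divisors in abelian
varieties.
-/

namespace Pool.Agent.Results.MP_524776_ag.TameFactorisations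

open Pool.Agent.H914 Pool.Agent.H914.VarClass Pool.Agent.H914.VarClass.Obj Pool.Agent.W492.BB
  Pool.Agent.TH133 Pool.Agent.D0H66.CKS

universe v

theorem result {𝒱 : VarClass ℂ} {C : TheoryData.{0, v, 0} 𝒱 ℚ} [IsChowProj C]
    {H : WeilTheoryData.{0, v, 0} C ℚ} [IsWeilProj H]
    (hfin : ∀ X : 𝒱.Obj, Module.Finite ℚ (H.A X)) :
    -- (1) Chow-Künneth decompositions and cohomology groups of tame type
    (∀ (X : 𝒱.Obj) (w : ℕ), w ≤ 2 * X.dim →
      ((∃ π, IsCK H X π ∧ ∀ i ≠ w, TameSum H X (π i)) ↔
        ∀ i : ℕ, i ≠ w → KunnethProjector H X i ∧ TameType H X i)) ∧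
    -- (2) from a divisor to the ambient variety
    (∀ (X Y : 𝒱.Obj) (ι : Y ⟶ X), Y.dim + 1 = X.dim → LefschetzInverse H X (C.push ι 1) →
      (∀ j : ℕ, j ≤ Y.dim → TameType H Y j ∨ TameType H Y (2 * Y.dim - j)) →
      ∃ π, IsCK H X π ∧ ∀ i ≠ X.dim, TameSum H X (π i)) ∧
    -- (3) from a divisor with nilpotent kernel to the ambient variety
    (∀ (X Y : 𝒱.Obj) (ι : Y ⟶ X), Y.dim + 1 = X.dim → LefschetzInverse H X (C.push ι 1) →
      NilpotentKernel H Y → ∃ π, IsCK H X π ∧ ∀ i ≠ X.dim, TameComponent H X (π i)) ∧
    -- (4) from the ambient variety to a divisor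
    (∀ (X Y : 𝒱.Obj) (ι : Y ⟶ X), Y.dim + 1 = X.dim → LefschetzInverse H X (C.push ι 1) →
      (∀ i : ℕ, i < Y.dim → ∀ a : H.A Y, H.Deg i a → ∃ b : H.A X, H.Deg i b ∧ a = H.pull ι b) →
      (∀ i : ℕ, Y.dim < i → ∀ a : H.A Y, H.Deg i a → H.push ι a = 0 → a = 0) →
      (∀ j : ℕ, j < X.dim → TameType H X j ∨ TameType H X (2 * X.dim - j)) →
      ∃ π, IsCK H Y π ∧ ∀ i ≠ Y.dim, TameSum H Y (π i)) :=
  ⟨fun X _ hw => haveI := hfin X; Pool.Agent.D0H66.CK.ck_iff hw,
    fun X _ ι hdim hL hY => haveI := hfin X; Pool.Agent.D0H66.CK.ck_of_divisor ι hdim hL hY,
    fun _ _ ι hdim hL hY => Pool.Agent.D0H66.CK.ck_of_tame_divisor ι hdim hL hY,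
    fun _ Y ι hdim hL hW hW' hX => haveI := hfin Y
      Pool.Agent.D0H66.CK.ck_of_ambient ι hdim hL hW hW' hX⟩

end Pool.Agent.Results.MP_524776_ag.TameFactorisations
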